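import Pool.Agent.Helper72_Cut.Statements
import Pool.Agent.Helper91_CW.Core

/-!
Squad MP_1dbb29_pr: modules D7 PAIR, D6 FREE, D4 MIXU, D2 MONO.
-/

set_option autoImplicit false
set_option linter.unusedSectionVars false
set_option linter.unusedSimpArgs false

namespace H59CW

open Finset Equiv Pool.Agent.Helper91_CW H72C

/-! ## D7 -/

theorem Kw_symm {H : Type} [Fintype H] [DecidableEq H] (N : ℕ) (w : H → H → ℝ)
    (q : H → ℝ) (hw : ∀ x y, w x y = w y x) (f g : H → ℝ) :
    ∑ z, Kw N w q f z * g z = ∑ z, f z * Kw N w q g z := by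
  have h1 : ∑ z, (∑ y, w z y * f y) * g z = ∑ z, f z * ∑ y, w z y * g y := by
    simp_rw [Finset.sum_mul, Finset.mul_sum]
    rw [Finset.sum_comm]
    refine Finset.sum_congr rfl fun y _ => Finset.sum_congr rfl fun z _ => ?_
    rw [hw z y]
    ring
  unfold Kw
  simp_rw [add_mul, mul_add, Finset.sum_add_distrib]
  rw [h1]
  congr 1
  refine Finset.sum_congr rfl fun z _ => by ring

theorem PAIR : PAIR_stmt := by
  intro H _ _ N w q hw
  refine ⟨?_, ?_⟩
  · intro s
    induction s with
    | zero =>
      intro t f g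
      simp
    | succ s ih =>
      intro t f g
      have e1 : ∀ z, (Kw N w q)^[s + 1] f z = Kw N w q ((Kw N w q)^[s] f) z := by
        intro z
        rw [Function.iterate_succ_apply']
      have e2 : Kw N w q ((Kw N w q)^[t] g) = (Kw N w q)^[t + 1] g := by
        rw [Function.iterate_succ_apply']
      simp_rw [e1]
      rw [Kw_symm N w q hw, e2, ih]
      have e3 : s + (t + 1) = s + 1 + t := by ring
      rw [e3]
  · intro s
    unfold mw
    have h1 : ∀ z, kw N w q (s + 1) z = Kw N w q (kw N w q s) z := by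
      intro z
      unfold kw
      rw [Function.iterate_succ_apply']
    simp_rw [h1]
    have h2 := Kw_symm N w q hw (kw N w q s) (fun _ => 1)
    simp only [mul_one] at h2
    rw [h2, Finset.mul_sum, ← Finset.sum_sub_distrib]
    refine Finset.sum_congr rfl fun z _ => ?_
    unfold Kw
    simp only [mul_one]
    ring

/-! ## D6 -/

theorem FREE (hW : WTS_stmt) : FREE_stmt := by
  intro P φ hφ s x
  obtain ⟨-, -, -, -, hw0, -, -, hq0, -, -, -, -, hX0, -, hXs, -⟩ := hW P
  have hsum : ∀ (x : Hx P) (F : Vx P → ℝ), ∑ y, wX P (Sum.inl x) y * F y =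
      ∑ y, wH P x y * F (Sum.inl y) + ∑ b, qH P x * F (Sum.inr b) := by
    intro x F
    rw [Fintype.sum_sum_type]
    rfl
  have hsum1 : ∀ (x : Hx P), ∑ y, wX P (Sum.inl x) y =
      ∑ y, wH P x y + Fintype.card (Fin P.Mn) * qH P x := by
    intro x
    have := hsum x (fun _ => 1)
    simp only [mul_one] at this
    rw [this]
    simp
  -- nonnegativity
  have hpos : ∀ s, ∀ z, 0 ≤ (pk (wX P))^[s] (fun y => Sum.elim φ (fun _ => 0) y) z := by
    intro s
    induction s with
    | zero =>
      rintro (z | z)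
      · exact hφ z
      · exact le_rfl
    | succ s ih =>
      intro z
      rw [Function.iterate_succ_apply']
      unfold pk
      refine add_nonneg (mul_nonneg (by have := hXs z; linarith) (ih z)) ?_
      exact Finset.sum_nonneg fun y _ => mul_nonneg (hX0 z y) (ih y)
  induction s generalizing x with
  | zero => simp
  | succ s ih =>
    rw [Function.iterate_succ_apply', Function.iterate_succ_apply']
    set F := (pk (wX P))^[s] (fun y => Sum.elim φ (fun _ => 0) y) with hF
    set f := (Kw (Fintype.card (Fin P.Mn)) (wH P) (qH P))^[s] φ with hf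
    unfold pk Kw
    rw [hsum, hsum1]
    have h1 : 0 ≤ 1 - (∑ y, wH P x y + Fintype.card (Fin P.Mn) * qH P x) := by
      have := hXs (Sum.inl x)
      rw [hsum1] at this
      linarith
    have h2 : (1 - ∑ y, wH P x y - Fintype.card (Fin P.Mn) * qH P x) * f x ≤
        (1 - (∑ y, wH P x y + Fintype.card (Fin P.Mn) * qH P x)) * F (Sum.inl x) := by
      have e : (1 - ∑ y, wH P x y - Fintype.card (Fin P.Mn) * qH P x) =
        (1 - (∑ y, wH P x y + Fintype.card (Fin P.Mn) * qH P x)) := by ring
      rw [e]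
      exact mul_le_mul_of_nonneg_left (ih x) h1
    have h3 : ∑ y, wH P x y * f y ≤ ∑ y, wH P x y * F (Sum.inl y) :=
      Finset.sum_le_sum fun y _ => mul_le_mul_of_nonneg_left (ih y) (hw0 x y)
    have h4 : 0 ≤ ∑ b, qH P x * F (Sum.inr b) :=
      Finset.sum_nonneg fun b _ => mul_nonneg (hq0 x) (hpos s _)
    linarith

/-! ## Probability measures -/

section mass
variable {G : Type} [Fintype G]

/-- total mass -/
noncomputable def mass (f : Alg G) : ℝ := ∑ g, f.coeff g

theorem mass_add (f g : Alg G) : mass (f + g) = mass f + mass g := by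
  simp [mass, Finset.sum_add_distrib]

theorem mass_smul (c : ℝ) (f : Alg G) : mass (c • f) = c * mass f := by
  simp [mass, Finset.mul_sum]

theorem mass_sub (f g : Alg G) : mass (f - g) = mass f - mass g := by
  simp [mass, Finset.sum_sub_distrib]

theorem mass_sum {ι : Type*} (s : Finset ι) (f : ι → Alg G) :
    mass (∑ i ∈ s, f i) = ∑ i ∈ s, mass (f i) := by
  classical
  induction s using Finset.induction_on with
  | empty => simp [mass]
  | insert a s ha ih => rw [Finset.sum_insert ha, Finset.sum_insert ha, mass_add, ih]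

variable [Group G]

theorem mass_pt_mul (g : G) (f : Alg G) : mass (pt g * f) = mass f := by
  unfold mass
  simp only [coeff_pt_mul]
  exact Fintype.sum_equiv (Equiv.mulLeft g⁻¹) _ _ (fun h => rfl)

theorem mass_mul (f g : Alg G) : mass (f * g) = mass f * mass g := by
  conv_lhs => rw [eq_sum_pt f, Finset.sum_mul]
  rw [mass_sum]
  simp_rw [smul_mul_assoc, mass_smul, mass_pt_mul]
  rw [← Finset.sum_mul]
  rfl

theorem mass_one : mass (1 : Alg G) = 1 := by
  classical
  unfold mass
  rw [← pt_one, pt, Finset.sum_eq_single (1 : G)]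
  · simp [MonoidAlgebra.coeff_single]
  · intro b _ hb
    simp [MonoidAlgebra.coeff_single, Finsupp.single_eq_of_ne hb, Finsupp.single_eq_of_ne (Ne.symm hb)]
  · simp

theorem mass_pow (f : Alg G) (n : ℕ) : mass (f ^ n) = mass f ^ n := by
  induction n with
  | zero => simp [mass_one]
  | succ n ih => rw [pow_succ, pow_succ, mass_mul, ih]

end mass

section NNs
variable {V : Type} [Fintype V] [DecidableEq V]

theorem NN_add {f g : Alg (Perm V)} (hf : NN f) (hg : NN g) : NN (f + g) := by
  intro a
  simpa using add_nonneg (hf a) (hg a)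

theorem NN_smul {c : ℝ} {f : Alg (Perm V)} (hc : 0 ≤ c) (hf : NN f) : NN (c • f) := by
  intro a
  simpa using mul_nonneg hc (hf a)

theorem NN_pt (g : Perm V) : NN (pt g) := by
  intro a
  rw [pt, MonoidAlgebra.coeff_single, Finsupp.single_apply]
  split_ifs <;> norm_num

theorem NN_sum {ι : Type*} (s : Finset ι) {f : ι → Alg (Perm V)} (hf : ∀ i ∈ s, NN (f i)) :
    NN (∑ i ∈ s, f i) := by
  classical
  induction s using Finset.induction_on with
  | empty => intro a; simp
  | insert a s ha ih =>
    rw [Finset.sum_insert ha]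
    exact NN_add (hf a (Finset.mem_insert_self _ _))
      (ih fun i hi => hf i (Finset.mem_insert_of_mem hi))

theorem NN_mul {f g : Alg (Perm V)} (hf : NN f) (hg : NN g) : NN (f * g) := by
  rw [eq_sum_pt f, Finset.sum_mul]
  refine NN_sum _ fun a _ => ?_
  rw [smul_mul_assoc]
  refine NN_smul (hf a) ?_
  intro b
  rw [coeff_pt_mul]
  exact hg _

theorem NN_one : NN (1 : Alg (Perm V)) := by
  rw [← pt_one]
  exact NN_pt 1

theorem NN_pow {f : Alg (Perm V)} (hf : NN f) (n : ℕ) : NN (f ^ n) := by
  induction n with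
  | zero => rw [pow_zero]; exact NN_one
  | succ n ih => rw [pow_succ]; exact NN_mul ih hf

theorem nrm_NN {f : Alg (Perm V)} (hf : NN f) : nrm f = mass f := by
  unfold nrm mass
  exact Finset.sum_congr rfl fun g _ => abs_of_nonneg (hf g)

theorem pt_mul_unif_univ (g : Perm V) : pt g * unif (univ : Finset (Perm V)) = unif univ := by
  rw [pt_mul_unif]
  congr 1
  ext a
  simp only [mem_image, mem_univ, true_and, iff_true]
  exact ⟨g⁻¹ * a, by group⟩

theorem mul_unif_univ (f : Alg (Perm V)) :
    f * unif (univ : Finset (Perm V)) = mass f • unif univ := by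
  conv_lhs => rw [eq_sum_pt f, Finset.sum_mul]
  simp_rw [smul_mul_assoc, pt_mul_unif_univ]
  rw [← Finset.sum_smul]
  rfl

end NNs

/-! ## D4 -/

theorem MIXU : MIXU_stmt := by
  intro V _ _ X R p hX hR hp0 hp1 t
  set Y := (1 - p) • X + p • R with hY
  have hmX : mass X = 1 := hX.2
  have hmR : mass R = 1 := hR.2
  have hYN : NN Y := NN_add (NN_smul (by linarith) hX.1) (NN_smul hp0 hR.1)
  have hmY : mass Y = 1 := by
    rw [hY, mass_add, mass_smul, mass_smul, hmX, hmR]
    ring
  have hD : ∀ t : ℕ, NN (Y ^ t - (1 - p) ^ t • X ^ t) := by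
    intro t
    induction t with
    | zero =>
      intro a
      simp
    | succ t ih =>
      have e : Y ^ (t + 1) - (1 - p) ^ (t + 1) • X ^ (t + 1) =
          Y * (Y ^ t - (1 - p) ^ t • X ^ t) + (p * (1 - p) ^ t) • (R * X ^ t) := by
        have h1 : Y * ((1 - p) ^ t • X ^ t) =
            (1 - p) ^ (t + 1) • X ^ (t + 1) + (p * (1 - p) ^ t) • (R * X ^ t) := by
          rw [mul_smul_comm, hY, add_mul, smul_mul_assoc, smul_mul_assoc, ← pow_succ', smul_add,
            smul_smul, smul_smul, pow_succ (1 - p) t, mul_comm p]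
        rw [mul_sub, h1, pow_succ' Y]
        abel
      rw [e]
      exact NN_add (NN_mul hYN ih) (NN_smul (by have : 0 ≤ (1 - p) ^ t := pow_nonneg (by linarith) t
                                                positivity) (NN_mul hR.1 (NN_pow hX.1 t)))
  have hq : 0 ≤ (1 - p) ^ t := pow_nonneg (by linarith) t
  have hq1 : (1 - p) ^ t ≤ 1 := pow_le_one₀ (by linarith) (by linarith)
  have e : Y ^ t - unif univ = (1 - p) ^ t • (X ^ t - unif univ) +
      ((Y ^ t - (1 - p) ^ t • X ^ t) - (1 - (1 - p) ^ t) • unif univ) := by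
    rw [smul_sub, sub_smul, one_smul]
    abel
  have hm : mass (Y ^ t - (1 - p) ^ t • X ^ t) = 1 - (1 - p) ^ t := by
    rw [mass_sub, mass_smul, mass_pow, mass_pow, hmX, hmY]
    simp
  calc nrm (Y ^ t - unif univ) ≤ nrm ((1 - p) ^ t • (X ^ t - unif univ)) +
        (nrm (Y ^ t - (1 - p) ^ t • X ^ t) + nrm ((1 - (1 - p) ^ t) • unif (univ : Finset (Perm V)))) := by
        rw [e]
        exact (nrm_add_le _ _).trans (by gcongr; exact nrm_sub_le _ _)
    _ ≤ (1 - p) ^ t * nrm (X ^ t - unif univ) + ((1 - (1 - p) ^ t) + (1 - (1 - p) ^ t) * 1) := by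
        rw [nrm_smul, abs_of_nonneg hq, nrm_NN (hD t), hm, nrm_smul, abs_of_nonneg (by linarith)]
        have h6 := nrm_unif_le (univ : Finset (Perm V))
        have h7 : 0 ≤ 1 - (1 - p) ^ t := by linarith
        gcongr
    _ = _ := by ring

/-! ## D2 -/

theorem NN_nu {V : Type} [Fintype V] [DecidableEq V] {w : V → V → ℝ} (h0 : ∀ x y, 0 ≤ w x y)
    (h1 : wtot w ≤ 1) : NN (nu w) := by
  unfold nu
  refine NN_add (NN_smul (by linarith) NN_one) (NN_smul (by norm_num) ?_)
  exact NN_sum _ fun x _ => NN_sum _ fun y _ => NN_smul (h0 x y) (NN_pt _)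

theorem mass_nu {V : Type} [Fintype V] [DecidableEq V] (w : V → V → ℝ) : mass (nu w) = 1 := by
  have hpt : ∀ g : Perm V, mass (pt g) = 1 := by
    intro g
    have := mass_pt_mul g (1 : Alg (Perm V))
    rw [mul_one, mass_one] at this
    exact this
  unfold nu
  rw [mass_add, mass_smul, mass_smul, mass_one, mass_sum]
  simp_rw [mass_sum, mass_smul, hpt]
  unfold wtot
  simp

theorem wtot_wG_le {V : Type} [Fintype V] [DecidableEq V] (G : SimpleGraph V) :
    wtot (wG G) ≤ 1 := by
  classical
  unfold wtot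
  have hN : (0 : ℝ) ≤ 1 / (2 * (Fintype.card V : ℝ)) := by positivity
  have h1 : ∀ x, ∑ y, (if G.Adj x y then (1 / (G.degree x : ℝ)) else 0) ≤ 1 := by
    intro x
    rw [← Finset.sum_filter, Finset.sum_const, nsmul_eq_mul]
    have : (univ.filter fun y => G.Adj x y).card = G.degree x := by
      rw [← SimpleGraph.card_neighborFinset_eq_degree]
      congr 1
      ext y
      simp
    rw [this, mul_one_div]
    exact div_self_le_one _
  have h2 : ∑ x, ∑ y, (if G.Adj x y then (1 / (G.degree x : ℝ)) else 0) ≤ Fintype.card V := by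
    calc _ ≤ ∑ x : V, (1 : ℝ) := Finset.sum_le_sum fun x _ => h1 x
      _ = Fintype.card V := by simp
  have h3 : ∑ x, ∑ y, (if G.Adj x y then (1 / (G.degree y : ℝ)) else 0) ≤ Fintype.card V := by
    rw [Finset.sum_comm]
    refine le_trans (le_of_eq ?_) h2
    refine Finset.sum_congr rfl fun x _ => Finset.sum_congr rfl fun y _ => ?_
    simp only [G.adj_comm]
  have h4 : ∑ x, ∑ y, wG G x y = 1 / (2 * (Fintype.card V : ℝ)) *
      (∑ x, ∑ y, (if G.Adj x y then (1 / (G.degree x : ℝ)) else 0) +
        ∑ x, ∑ y, (if G.Adj x y then (1 / (G.degree y : ℝ)) else 0)) := by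
    rw [← Finset.sum_add_distrib, Finset.mul_sum]
    refine Finset.sum_congr rfl fun x _ => ?_
    rw [← Finset.sum_add_distrib, Finset.mul_sum]
    refine Finset.sum_congr rfl fun y _ => ?_
    unfold wG
    by_cases h : G.Adj x y
    · simp only [h, if_true]
    · simp [h]
  rw [h4]
  have h5 : 1 / (2 * (Fintype.card V : ℝ)) *
      (∑ x, ∑ y, (if G.Adj x y then (1 / (G.degree x : ℝ)) else 0) +
        ∑ x, ∑ y, (if G.Adj x y then (1 / (G.degree y : ℝ)) else 0)) ≤ 1 := by
    calc _ ≤ 1 / (2 * (Fintype.card V : ℝ)) * (Fintype.card V + Fintype.card V) := by gcongr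
      _ = (2 * (Fintype.card V : ℝ)) / (2 * (Fintype.card V : ℝ)) := by ring
      _ ≤ 1 := div_self_le_one _
  linarith

theorem wG_nonneg {V : Type} [Fintype V] (G : SimpleGraph V) (x y : V) : 0 ≤ wG G x y := by
  unfold wG
  split_ifs
  · positivity
  · exact le_rfl

theorem MONO (hL : LAW_stmt) : MONO_stmt := by
  intro n G hn hG s t hst
  have key : ∀ t, tvd G t = (1 / 2) * nrm (nu (wG G) ^ t - unif univ) := by
    intro t
    have := hL (Fin n) G n (Equiv.refl _) hG hn t
    have e : G.map (Equiv.refl (Fin n)).toEmbedding = G := by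
      ext x y
      simp [SimpleGraph.map_adj]
    rw [e] at this
    exact this
  have hstep : ∀ t, tvd G (t + 1) ≤ tvd G t := by
    intro t
    rw [key, key]
    refine mul_le_mul_of_nonneg_left ?_ (by norm_num)
    have e : nu (wG G) ^ (t + 1) - unif univ = nu (wG G) * (nu (wG G) ^ t - unif univ) := by
      rw [mul_sub, mul_unif_univ, mass_nu, one_smul, pow_succ']
    rw [e]
    refine (nrm_mul_le _ _).trans ?_
    rw [nrm_NN (NN_nu (wG_nonneg G) (wtot_wG_le G)), mass_nu, one_mul]
  exact antitone_nat_of_succ_le hstep hst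

end H59CW
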