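import Pool.Agent.Helper72_Cut.AsmStmts

/-!
Squad MP_1dbb29_pr: modules U4, U5, U67.
-/

set_option autoImplicit false
set_option linter.unusedSectionVars false
set_option linter.unusedSimpArgs false
set_option linter.unusedVariables false

namespace H59CW

open Finset Equiv Pool.Agent.Helper91_CW H72C

/-- the killed kernel -/
noncomputable abbrev KP (P : Par) : (Hx P → ℝ) → (Hx P → ℝ) :=
  Kw (Fintype.card (Fin P.Mn)) (wH P) (qH P)

theorem KP_diag (hW : WTS_stmt) (P : Par) (x : Hx P) :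
    0 ≤ 1 - ∑ y, wH P x y - Fintype.card (Fin P.Mn) * qH P x := by
  obtain ⟨-, -, -, -, -, -, -, -, -, -, -, -, -, -, hXs, -⟩ := hW P
  have h1 := hXs (Sum.inl x)
  rw [Fintype.sum_sum_type] at h1
  have h2 : ∑ b : Fin P.Mn, wX P (Sum.inl x) (Sum.inr b) = Fintype.card (Fin P.Mn) * qH P x := by
    have : ∀ b : Fin P.Mn, wX P (Sum.inl x) (Sum.inr b) = qH P x := fun b => rfl
    simp [this]
  rw [h2] at h1
  have h3 : ∑ y, wX P (Sum.inl x) (Sum.inl y) = ∑ y, wH P x y := rfl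
  rw [h3] at h1
  linarith

theorem KP_nonneg (hW : WTS_stmt) (P : Par) {f : Hx P → ℝ} (hf : ∀ x, 0 ≤ f x) (s : ℕ) :
    ∀ x, 0 ≤ (KP P)^[s] f x := by
  induction s with
  | zero => exact hf
  | succ s ih =>
    intro x
    rw [Function.iterate_succ_apply']
    exact add_nonneg (mul_nonneg (KP_diag hW P x) (ih x))
      (Finset.sum_nonneg fun y _ => mul_nonneg ((hW P).2.2.2.2.1 x y) (ih y))

theorem KP_mono (hW : WTS_stmt) (P : Par) {f g : Hx P → ℝ} (hf : ∀ x, f x ≤ g x) (s : ℕ) :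
    ∀ x, (KP P)^[s] f x ≤ (KP P)^[s] g x := by
  induction s with
  | zero => exact hf
  | succ s ih =>
    intro x
    rw [Function.iterate_succ_apply', Function.iterate_succ_apply']
    exact add_le_add (mul_le_mul_of_nonneg_left (ih x) (KP_diag hW P x))
      (Finset.sum_le_sum fun y _ => mul_le_mul_of_nonneg_left (ih y) ((hW P).2.2.2.2.1 x y))

theorem KP_sum (P : Par) {ι : Type} (S : Finset ι) (f : ι → Hx P → ℝ) (s : ℕ) :
    ∀ x, (KP P)^[s] (fun z => ∑ i ∈ S, f i z) x = ∑ i ∈ S, (KP P)^[s] (f i) x := by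
  induction s with
  | zero => intro x; rfl
  | succ s ih =>
    intro x
    have e : (KP P)^[s] (fun z => ∑ i ∈ S, f i z) = fun x => ∑ i ∈ S, (KP P)^[s] (f i) x :=
      funext ih
    rw [Function.iterate_succ_apply', e]
    simp_rw [Function.iterate_succ_apply']
    unfold KP Kw
    rw [Finset.sum_add_distrib, Finset.mul_sum]
    congr 1
    simp_rw [Finset.mul_sum]
    rw [Finset.sum_comm]

theorem geom_lt (n : ℕ) : ∑ j ∈ range n, ((4 : ℝ) / 9) ^ j ≤ 9 / 5 := by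
  have h : ∀ n : ℕ, ∑ j ∈ range n, ((4 : ℝ) / 9) ^ j = 9 / 5 * (1 - (4 / 9) ^ n) := by
    intro n
    induction n with
    | zero => simp
    | succ n ih => rw [Finset.sum_range_succ, ih]; ring
  rw [h]
  have : (0 : ℝ) ≤ (4 / 9) ^ n := by positivity
  linarith

theorem T1_ge (P : Par) : 2005.2 * EE P ≤ T1 P := Nat.le_ceil _

/-! ## U67 -/

theorem U67 (hS : SIZE_stmt) (hR1 : RATE_stmt) (hM : MW_stmt) : U67_stmt := by
  intro R hR hR13 P hP
  obtain ⟨s1, s2, s3, s4, s5, s6⟩ := hS R hR13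
  obtain ⟨-, r2, -, -, -, -, -, -, -, -, -, rE⟩ := hR1 R hR hR13 P hP
  obtain ⟨-, -, -, -, m5⟩ := hM R hR hR13 P hP
  obtain ⟨m1, -⟩ := hM R hR hR13 P hP
  have hT := T1_ge P
  have hm := m5 (T1 P) (by nlinarith)
  have hM0 : P.M0 = R * Ww R := by rw [hP]; rfl
  have hMn : P.Mn = 4 ^ (5 * 4 ^ R) := by rw [hP]; rfl
  have hW := Ww_pos R
  have hRpos : (0 : ℝ) < R := by positivity
  have hM0pos : (0 : ℝ) < P.M0 := by
    rw [hM0]; push_cast
    have : (0 : ℝ) < Ww R := by exact_mod_cast hW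
    positivity
  have hR13' : (10 : ℝ) ^ 13 ≤ R := by exact_mod_cast hR13
  constructor
  · have h4 : (0 : ℝ) < (R * P.M0 * 4 ^ Jj R : ℕ) := by push_cast; positivity
    calc 2 * (((R * P.M0 * 4 ^ Jj R : ℕ) : ℝ)⁻¹ * mwP P (T1 P))
        ≤ 2 * (((R * P.M0 * 4 ^ Jj R : ℕ) : ℝ)⁻¹ * (5 * P.M0 * 4 ^ Jj R)) := by gcongr
      _ = 10 / R := by
          push_cast
          field_simp
          norm_num
      _ ≤ 1 / 20 := by
          rw [div_le_div_iff₀ hRpos (by norm_num)]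
          linarith
  · set Q := 4 ^ R with hQ
    set q := Q / 10 ^ 5 with hq
    set d := Q / 16 with hd
    have hdq : 9 + 4 * q ≤ d := by
      have h6 : 10 ^ 6 * (10 ^ 13) ≤ Q := le_trans (Nat.mul_le_mul_left _ hR13) s2
      omega
    have h1 : ((Fintype.card (Hx P) + Fintype.card (Fin P.Mn) : ℕ) : ℝ) ≤ 4 ^ (5 * Q + 1) := by
      rw [Fintype.card_fin]
      have : Fintype.card (Hx P) + P.Mn ≤ 4 * P.Mn := by omega
      calc ((Fintype.card (Hx P) + P.Mn : ℕ) : ℝ) ≤ ((4 * P.Mn : ℕ) : ℝ) := by exact_mod_cast this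
        _ = 4 ^ (5 * Q + 1) := by rw [hMn]; push_cast; ring
    have h2 : ((Fintype.card (Hx P) + Fintype.card (Fin P.Mn) : ℕ) : ℝ) /
        (4 : ℝ) ^ (5 * Q + d) ≤ (2 * (1 / 2) ^ d) ^ 2 := by
      rw [div_le_iff₀ (by positivity)]
      refine h1.trans (le_of_eq ?_)
      have e1 : ((2 : ℝ) * (1 / 2) ^ d) ^ 2 = 4 * (1 / 4) ^ d := by
        rw [mul_pow, ← pow_mul, mul_comm d 2, pow_mul]; norm_num
      rw [e1, pow_add, pow_add, pow_one]
      have e2 : ((1 : ℝ) / 4) ^ d * 4 ^ d = 1 := by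
        rw [← mul_pow]; norm_num
      calc (4 : ℝ) ^ (5 * Q) * 4 = 4 * 4 ^ (5 * Q) * 1 := by ring
        _ = 4 * 4 ^ (5 * Q) * ((1 / 4) ^ d * 4 ^ d) := by rw [e2]
        _ = _ := by ring
    have h3 : Real.sqrt (((Fintype.card (Hx P) + Fintype.card (Fin P.Mn) : ℕ) : ℝ) /
        (4 : ℝ) ^ (5 * Q + d)) ≤ 2 * (1 / 2) ^ d := by
      rw [Real.sqrt_le_left (by positivity)]
      exact h2
    have h5 : mwP P (T1 P) ≤ 5 * 2 ^ (4 * q) := by
      refine hm.trans ?_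
      have a1 : (P.M0 : ℝ) ≤ 4 ^ q := by rw [hM0]; exact_mod_cast s5
      have a2 : ((4 : ℝ) ^ Jj R) ≤ 4 ^ q := by exact_mod_cast s6
      calc 5 * (P.M0 : ℝ) * 4 ^ Jj R ≤ 5 * 4 ^ q * 4 ^ q := by gcongr
        _ = 5 * 2 ^ (4 * q) := by
            have : (2 : ℝ) ^ (4 * q) = 4 ^ q * 4 ^ q := by
              rw [← mul_pow, pow_mul]; norm_num
            rw [this]; ring
    calc 2 * Real.sqrt (((Fintype.card (Hx P) + Fintype.card (Fin P.Mn) : ℕ) : ℝ) /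
          (4 : ℝ) ^ (5 * Q + d)) * mwP P (T1 P)
        ≤ 2 * (2 * (1 / 2) ^ d) * (5 * 2 ^ (4 * q)) := by
          have := m1 (T1 P)
          gcongr
      _ = 20 * (1 / 2) ^ d * 2 ^ (4 * q) := by ring
      _ ≤ 20 * (1 / 2) ^ (9 + 4 * q) * 2 ^ (4 * q) := by
          have : ((1 : ℝ) / 2) ^ d ≤ (1 / 2) ^ (9 + 4 * q) :=
            pow_le_pow_of_le_one (by norm_num) (by norm_num) hdq
          gcongr
      _ = 20 * (1 / 2) ^ 9 * ((1 / 2) ^ (4 * q) * 2 ^ (4 * q)) := by rw [pow_add]; ring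
      _ = 20 * (1 / 2) ^ 9 * 1 := by rw [← mul_pow]; norm_num
      _ ≤ 1 / 20 := by norm_num

/-! ## U5 -/

theorem kwP_eq (hL : LEV_stmt) (P : Par) (s : ℕ) (z : Hx P) :
    kwP P s z = bIt (UP P (gd P z)) (P.m (gd P z)) 0 (fun _ => 1) s (lv P z) :=
  hL P (fun _ _ => 1) s z

theorem lv_le (P : Par) (z : Hx P) : lv P z ≤ P.m (gd P z) :=
  Nat.lt_succ_iff.1 z.2.1.2

theorem U5 (hW : WTS_stmt) (hL : LEV_stmt) (hSm : SUM_stmt) (hS : SIZE_stmt) (hR1 : RATE_stmt)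
    (hC : LADC_stmt) : U5_stmt := by
  intro R hR hR13 P hP
  obtain ⟨s1, s2, s3, s4, s5, s6⟩ := hS R hR13
  obtain ⟨-, r2, -, -, -, -, -, -, -, -, -, rE⟩ := hR1 R hR hR13 P hP
  obtain ⟨c1, -⟩ := hC R hR hR13 P hP
  have hT := T1_ge P
  have hM0 : P.M0 = R * Ww R := by rw [hP]; rfl
  set Q := 4 ^ R with hQ
  set q := Q / 10 ^ 5 with hq
  set J := Jj R with hJ
  have hbig : 10 ^ 6 * (10 ^ 13) ≤ Q := le_trans (Nat.mul_le_mul_left _ hR13) s2
  have hhalf : ∀ s : ℕ, T1 P ≤ 2 * s + 1 → 501 * EE P ≤ s := by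
    intro s hs
    have h1 : (T1 P : ℝ) ≤ 2 * s + 1 := by exact_mod_cast hs
    linarith
  have hb : ∀ s : ℕ, T1 P ≤ 2 * s + 1 → ∀ z, kwP P s z ≤ 3 ^ J / 3 ^ lv P z := by
    intro s hs z
    rw [kwP_eq hL]
    exact c1 _ s (hhalf s hs) _ (lv_le P z)
  have hk0 : ∀ s z, 0 ≤ kwP P s z := fun s z => KP_nonneg hW P (fun _ => zero_le_one) s z
  have hm : ∀ g, P.m g + 1 ≤ P.m g + 1 := fun g => le_rfl
  have key : ∑ z ∈ Upp P R, kwP P (T1 P / 2) z * kwP P (T1 P - T1 P / 2) z ≤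
      ∑ z : Hx P, (if Q ≤ lv P z then ((9 : ℝ) ^ J / 9 ^ lv P z) else 0) := by
    unfold Upp
    rw [Finset.sum_filter]
    refine Finset.sum_le_sum fun z _ => ?_
    split_ifs with h
    · calc kwP P (T1 P / 2) z * kwP P (T1 P - T1 P / 2) z
          ≤ (3 ^ J / 3 ^ lv P z) * (3 ^ J / 3 ^ lv P z) := by
            refine mul_le_mul (hb _ (by omega) z) (hb _ (by omega) z) (hk0 _ _) (by positivity)
        _ = 9 ^ J / 9 ^ lv P z := by
            rw [div_mul_div_comm, ← mul_pow, ← mul_pow]; norm_num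
    · exact le_rfl
  have key2 : ∑ z : Hx P, (if Q ≤ lv P z then ((9 : ℝ) ^ J / 9 ^ lv P z) else 0) ≤
      ∑ g : Bool, (P.M0 : ℝ) * 9 ^ J * ((4 / 9) ^ Q * (9 / 5)) := by
    rw [hSm P (fun _ l => if Q ≤ l then ((9 : ℝ) ^ J / 9 ^ l) else 0)]
    refine Finset.sum_le_sum fun g _ => ?_
    have h1 : ∀ j ∈ range (P.m g + 1), (P.M0 : ℝ) * 4 ^ j * (if Q ≤ j then (9 : ℝ) ^ J / 9 ^ j else 0) =
        (P.M0 : ℝ) * 9 ^ J * (if Q ≤ j then (4 / 9 : ℝ) ^ j else 0) := by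
      intro j _
      split_ifs
      · rw [div_pow]; ring
      · simp
    rw [Finset.sum_congr rfl h1, ← Finset.mul_sum]
    have h2 : ∑ j ∈ range (P.m g + 1), (if Q ≤ j then (4 / 9 : ℝ) ^ j else 0) ≤
        (4 / 9) ^ Q * (9 / 5) := by
      have h3 : ∑ j ∈ range (P.m g + 1), (if Q ≤ j then (4 / 9 : ℝ) ^ j else 0) ≤
          ∑ j ∈ range (Q + (P.m g + 1)), (if Q ≤ j then (4 / 9 : ℝ) ^ j else 0) := by
        refine Finset.sum_le_sum_of_subset_of_nonneg (range_mono (by omega)) ?_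
        intro j _ _
        split_ifs <;> positivity
      refine h3.trans ?_
      rw [Finset.sum_range_add]
      have h4 : ∑ j ∈ range Q, (if Q ≤ j then (4 / 9 : ℝ) ^ j else 0) = 0 := by
        refine Finset.sum_eq_zero fun j hj => ?_
        rw [mem_range] at hj
        rw [if_neg (by omega)]
      have h5 : ∑ j ∈ range (P.m g + 1), (if Q ≤ Q + j then (4 / 9 : ℝ) ^ (Q + j) else 0) =
          (4 / 9) ^ Q * ∑ j ∈ range (P.m g + 1), (4 / 9 : ℝ) ^ j := by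
        rw [Finset.mul_sum]
        refine Finset.sum_congr rfl fun j _ => ?_
        rw [if_pos (by omega), pow_add]
      rw [h4, h5, zero_add]
      exact mul_le_mul_of_nonneg_left (geom_lt _) (by positivity)
    exact mul_le_mul_of_nonneg_left h2 (by positivity)
  have h3 : (P.M0 : ℝ) * 9 ^ J ≤ 2 ^ (6 * q) := by
    have a1 : (P.M0 : ℝ) ≤ 4 ^ q := by rw [hM0]; exact_mod_cast s5
    have a2 : ((4 : ℝ) ^ J) ≤ 4 ^ q := by exact_mod_cast s6
    have a3 : (9 : ℝ) ^ J ≤ (4 ^ q) ^ 2 := by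
      calc (9 : ℝ) ^ J ≤ (4 ^ 2) ^ J := by gcongr; norm_num
        _ = (4 ^ J) ^ 2 := by rw [← pow_mul, ← pow_mul, mul_comm]
        _ ≤ (4 ^ q) ^ 2 := by gcongr
    calc (P.M0 : ℝ) * 9 ^ J ≤ 4 ^ q * (4 ^ q) ^ 2 := by gcongr
      _ = 2 ^ (6 * q) := by
          have : (2 : ℝ) ^ (6 * q) = 4 ^ q * (4 ^ q * 4 ^ q) := by
            rw [← mul_pow, ← mul_pow, pow_mul]; norm_num
          rw [this]; ring
  have hQq : 8 + 6 * q ≤ Q := by omega
  have h4 : ((4 : ℝ) / 9) ^ Q ≤ (1 / 2) ^ (8 + 6 * q) := by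
    calc ((4 : ℝ) / 9) ^ Q ≤ (1 / 2) ^ Q := pow_le_pow_left₀ (by norm_num) (by norm_num) Q
      _ ≤ (1 / 2) ^ (8 + 6 * q) := pow_le_pow_of_le_one (by norm_num) (by norm_num) hQq
  calc 2 * (∑ z ∈ Upp P R, kwP P (T1 P / 2) z * kwP P (T1 P - T1 P / 2) z)
      ≤ 2 * ∑ g : Bool, (P.M0 : ℝ) * 9 ^ J * ((4 / 9) ^ Q * (9 / 5)) := by
        gcongr; exact key.trans key2
    _ = 4 * ((P.M0 : ℝ) * 9 ^ J * ((4 / 9) ^ Q * (9 / 5))) := by
        rw [Fintype.sum_bool]; ring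
    _ ≤ 4 * (2 ^ (6 * q) * ((1 / 2) ^ (8 + 6 * q) * (9 / 5))) := by gcongr
    _ = 4 * (9 / 5) * (1 / 2) ^ 8 * ((1 / 2) ^ (6 * q) * 2 ^ (6 * q)) := by rw [pow_add]; ring
    _ = 4 * (9 / 5) * (1 / 2) ^ 8 * 1 := by rw [← mul_pow]; norm_num
    _ ≤ 1 / 20 := by norm_num

end H59CW
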