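import Pool.Agent.Helper59_CW.U

/-!
Squad MP_1dbb29_pr: module U4.
-/

set_option autoImplicit false
set_option linter.unusedSectionVars false
set_option linter.unusedSimpArgs false
set_option linter.unusedVariables false

namespace H59CW

open Finset Equiv Pool.Agent.Helper91_CW H72C

theorem bIt_congr {U : ℕ → ℝ} {m : ℕ} {φ ψ : ℕ → ℝ} (h : ∀ j, j ≤ m → φ j = ψ j) (t : ℕ) :
    bIt U m 0 φ t = bIt U m 0 ψ t := by
  unfold bIt
  congr 1
  funext j
  by_cases hj : j ≤ m
  · simp [hj, h j hj]
  · simp [hj]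

theorem bIt_zero_fun (U : ℕ → ℝ) (m t : ℕ) (j : ℕ) : bIt U m 0 (fun _ => 0) t j = 0 := by
  have h : ∀ t, (BD U m 0)^[t] (fun _ => (0 : ℝ)) = fun _ => 0 := by
    intro t
    induction t with
    | zero => rfl
    | succ t ih =>
      rw [Function.iterate_succ_apply', ih]
      funext j
      unfold BD
      simp
  unfold bIt
  have e : (fun j => if 0 ≤ j ∧ j ≤ m then (fun _ => (0 : ℝ)) j else 0) = fun _ => 0 := by
    funext j; simp
  rw [e, h]

theorem U4 (hW : WTS_stmt) (hL : LEV_stmt) (hSm : SUM_stmt) (hCe : CELL_stmt) (hPa : PAIR_stmt)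
    (hS : SIZE_stmt) (hR1 : RATE_stmt) (hTi : TIME_stmt) (hC : LADC_stmt) : U4_stmt := by
  classical
  intro R hR hR13 P hP
  obtain ⟨s1, s2, s3, s4, s5, s6⟩ := hS R hR13
  obtain ⟨-, r2, -, -, -, -, -, -, -, -, -, rE⟩ := hR1 R hR hR13 P hP
  obtain ⟨-, c2⟩ := hC R hR hR13 P hP
  obtain ⟨t1, t2, t3, -, -⟩ := hTi R hR hR13 P hP
  have hT := T1_ge P
  have hM0 : P.M0 = R * Ww R := by rw [hP]; rfl
  have hmm : ∀ g, P.m g ≤ Jj R + 3 * 4 ^ R := by
    intro g
    have : P.m g = H72C.mt R g := by rw [hP]; rfl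
    rw [this]
    unfold H72C.mt
    split_ifs <;> omega
  have hWw : Ww R = 401000 * 4 ^ R := rfl
  set Q := 4 ^ R with hQ
  set q := Q / 10 ^ 5 with hq
  set J := Jj R with hJ
  have hbig : 10 ^ 6 * (10 ^ 13) ≤ Q := le_trans (Nat.mul_le_mul_left _ hR13) s2
  set L := 5 * Q + Q / 16 with hLd
  have hRpos : (0 : ℝ) < R := by positivity
  have hR13' : (10 : ℝ) ^ 13 ≤ R := by exact_mod_cast hR13
  have hM0pos : (0 : ℝ) < P.M0 := by
    rw [hM0]; push_cast
    have : (0 : ℝ) < Ww R := by exact_mod_cast Ww_pos R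
    positivity
  -- pairs which are not good
  have hgood : ∀ x y : Hx P, L ≤ lv P x + lv P y →
      GoodPair (cellN P) (Upp P R) (R * P.M0 * 4 ^ J) (4 ^ L) x y := by
    intro x y hxy
    have hx := (lv_le P x).trans (hmm _)
    have hy := (lv_le P y).trans (hmm _)
    have hxQ : Q ≤ lv P x := by omega
    have hyQ : Q ≤ lv P y := by omega
    have e1 : szl (cellN P) (Upp P R) x = 4 ^ lv P x := hCe P Q x hxQ
    have e2 : szl (cellN P) (Upp P R) y = 4 ^ lv P y := hCe P Q y hyQ
    have h2r : 2 * (R * P.M0 * 4 ^ J) ≤ 4 ^ Q := by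
      have h1 : R ≤ 4 ^ q := le_trans (Nat.le_mul_of_pos_right _ (Ww_pos R)) s5
      have h2 : P.M0 ≤ 4 ^ q := by rw [hM0]; exact s5
      calc 2 * (R * P.M0 * 4 ^ J) ≤ 4 * (4 ^ q * 4 ^ q * 4 ^ q) := by
            gcongr; norm_num
        _ = 4 ^ (1 + (q + q + q)) := by rw [pow_add, pow_add, pow_add, pow_one]
        _ ≤ 4 ^ Q := by
            apply Nat.pow_le_pow_right (by norm_num)
            omega
    refine ⟨?_, ?_, ?_, ?_, ?_⟩
    · simp only [Upp, mem_filter, mem_univ, true_and]; exact hxQ
    · simp only [Upp, mem_filter, mem_univ, true_and]; exact hyQ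
    · rw [e1]; exact h2r.trans (Nat.pow_le_pow_right (by norm_num) hxQ)
    · rw [e2]; exact h2r.trans (Nat.pow_le_pow_right (by norm_num) hyQ)
    · rw [e1, e2]
      push_cast
      rw [← pow_add]
      exact pow_le_pow_right₀ (by norm_num) hxy
  have hδ : ∀ (y : Hx P) (s : ℕ) (x : Hx P), 0 ≤ (KP P)^[s] (fun z => if z = y then 1 else 0) x :=
    fun y s x => KP_nonneg hW P (fun z => by split_ifs <;> norm_num) s x
  -- step 1
  have step1 : ∀ x : Hx P, (∑ y, if GoodPair (cellN P) (Upp P R) (R * P.M0 * 4 ^ J)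
      (4 ^ L) x y then (0 : ℝ) else (KP P)^[T1 P] (fun z => if z = y then 1 else 0) x) ≤
      bIt (UP P (gd P x)) (P.m (gd P x)) 0 (fun l => if lv P x + l < L then 1 else 0) (T1 P)
        (lv P x) := by
    intro x
    have h1 : (∑ y, if GoodPair (cellN P) (Upp P R) (R * P.M0 * 4 ^ J)
        (4 ^ L) x y then (0 : ℝ) else (KP P)^[T1 P] (fun z => if z = y then 1 else 0) x) ≤
        ∑ y ∈ univ.filter (fun y => lv P x + lv P y < L),
          (KP P)^[T1 P] (fun z => if z = y then 1 else 0) x := by
      rw [Finset.sum_filter]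
      refine Finset.sum_le_sum fun y _ => ?_
      by_cases h : lv P x + lv P y < L
      · rw [if_pos h]
        split_ifs
        · exact hδ y _ x
        · exact le_rfl
      · rw [if_neg h, if_pos (hgood x y (by omega))]
    refine h1.trans (le_of_eq ?_)
    rw [← KP_sum]
    have e : (fun z => ∑ y ∈ univ.filter (fun y => lv P x + lv P y < L),
        (if z = y then (1 : ℝ) else 0)) = fun z => (fun (_ : Bool) l =>
          if lv P x + l < L then (1 : ℝ) else 0) (gd P z) (lv P z) := by
      funext z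
      rw [Finset.sum_ite_eq]
      simp
    rw [e]
    exact hL P (fun _ l => if lv P x + l < L then (1 : ℝ) else 0) (T1 P) x
  -- step 2
  have step2 : ∑ x : Hx P, bIt (UP P (gd P x)) (P.m (gd P x)) 0
      (fun l => if lv P x + l < L then 1 else 0) (T1 P) (lv P x) =
      ∑ g : Bool, ∑ i ∈ range (P.m g + 1), (P.M0 : ℝ) * 4 ^ i *
        bIt (UP P g) (P.m g) 0 (fun l => if i + l < L then 1 else 0) (T1 P) i :=
    hSm P (fun g i => bIt (UP P g) (P.m g) 0 (fun l => if i + l < L then 1 else 0) (T1 P) i)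
  -- step 3 : one level
  have step3 : ∀ (g : Bool) (i : ℕ), i ≤ P.m g → (P.M0 : ℝ) * 4 ^ i *
      bIt (UP P g) (P.m g) 0 (fun l => if i + l < L then 1 else 0) (T1 P) i ≤
      (9 / 20) / (R ^ 2 * P.M0) := by
    intro g i hi
    have him := hi.trans (hmm g)
    set i' : ℕ := min (L - 1 - i) (P.m g) with hi'
    have hi'm : i' ≤ P.m g := min_le_right _ _
    have hi'' := hi'm.trans (hmm g)
    -- times
    have hSg : ∀ k, k ≤ P.m g → SS (UP P g) k ≤ 1003.01 * EE P := by
      intro k hk
      cases g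
      · have := t1 k hk
        nlinarith
      · exact t2 k hk
    have hSum : SS (UP P g) i + SS (UP P g) i' ≤ 2005.08 * EE P := by
      cases g
      · have a1 := t1 i hi
        have a2 := t1 i' hi'm
        nlinarith
      · refine t3 i hi i' hi'm ?_
        have : i' ≤ L - 1 - i := min_le_left _ _
        omega
    have hS0 : ∀ k, k ≤ P.m g → SS (UP P g) k + EE P / 100 ≤ 1003.02 * EE P := by
      intro k hk
      have := hSg k hk
      linarith
    obtain ⟨u, v, huv, hu1, hu2, hv1, hv2⟩ : ∃ u v : ℕ, u + v = T1 P ∧ 501 * EE P ≤ u ∧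
        SS (UP P g) i + EE P / 100 ≤ u ∧ 501 * EE P ≤ v ∧
        SS (UP P g) i' + EE P / 100 ≤ v := by
      set a : ℝ := max (SS (UP P g) i + EE P / 100) (501 * EE P) with ha
      have ha0 : 0 ≤ a := le_trans (by positivity : (0 : ℝ) ≤ 501 * EE P) (le_max_right _ _)
      have hale : a ≤ 1003.02 * EE P := by
        refine max_le (hS0 i hi) ?_
        linarith
      have hceil : (⌈a⌉₊ : ℝ) < a + 1 := Nat.ceil_lt_add_one ha0
      have hle : ⌈a⌉₊ ≤ T1 P := by
        have : (⌈a⌉₊ : ℝ) ≤ T1 P := by linarith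
        exact_mod_cast this
      have hv : ((T1 P - ⌈a⌉₊ : ℕ) : ℝ) = T1 P - ⌈a⌉₊ := by
        rw [Nat.cast_sub hle]
      refine ⟨⌈a⌉₊, T1 P - ⌈a⌉₊, by omega, ?_, ?_, ?_, ?_⟩
      · exact (le_max_right _ _).trans (Nat.le_ceil a)
      · exact (le_max_left _ _).trans (Nat.le_ceil a)
      · rw [hv]; linarith
      · rw [hv]
        have hmax : a ≤ SS (UP P g) i + EE P / 100 ∨ a ≤ 501 * EE P := by
          rcases max_choice (SS (UP P g) i + EE P / 100) (501 * EE P) with h | h
          · left; rw [ha, h]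
          · right; rw [ha, h]
        rcases hmax with h | h
        · linarith
        · have := hS0 i' hi'm
          linarith
    -- the sum over the level
    have hφ : ∀ z : Hx P, gd P z = g → ∀ t, bIt (UP P g) (P.m g) 0
        (fun l => if i + l < L then 1 else 0) t (lv P z) =
        bIt (UP P g) (P.m g) 0 (fun l => if l ≤ i' then 1 else 0) t (lv P z) := by
      intro z _ t
      have : ∀ j, j ≤ P.m g → (if i + j < L then (1 : ℝ) else 0) = if j ≤ i' then 1 else 0 := by
        intro j hj
        have hiff : i + j < L ↔ j ≤ i' := by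
          rw [hi', le_min_iff]
          omega
        simp only [hiff]
      rw [bIt_congr this]
    have e1 : (P.M0 : ℝ) * 4 ^ i *
        bIt (UP P g) (P.m g) 0 (fun l => if i + l < L then 1 else 0) (T1 P) i =
        ∑ x : Hx P, (if gd P x = g ∧ lv P x = i then (1 : ℝ) else 0) *
          (KP P)^[T1 P] (fun z => if i + lv P z < L then 1 else 0) x := by
      have h1 : ∀ x : Hx P, (if gd P x = g ∧ lv P x = i then (1 : ℝ) else 0) *
          (KP P)^[T1 P] (fun z => if i + lv P z < L then 1 else 0) x =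
          (fun g' j => if g' = g ∧ j = i then
            bIt (UP P g) (P.m g) 0 (fun l => if i + l < L then 1 else 0) (T1 P) i else 0)
            (gd P x) (lv P x) := by
        intro x
        have h2 := hL P (fun _ l => if i + l < L then (1 : ℝ) else 0) (T1 P) x
        by_cases h : gd P x = g ∧ lv P x = i
        · simp only [if_pos h, one_mul]
          have e3 : bIt (UP P g) (P.m g) 0 (fun l => if i + l < L then 1 else 0) (T1 P) i =
              bIt (UP P (gd P x)) (P.m (gd P x)) 0 (fun l => if i + l < L then 1 else 0) (T1 P)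
                (lv P x) := by rw [h.1, h.2]
          rw [e3]
          exact h2
        · simp only [if_neg h, zero_mul]
      rw [Finset.sum_congr rfl fun x _ => h1 x, hSm P (fun g' j => if g' = g ∧ j = i then
            bIt (UP P g) (P.m g) 0 (fun l => if i + l < L then 1 else 0) (T1 P) i else 0)]
      rw [Finset.sum_eq_single g]
      · rw [Finset.sum_eq_single i]
        · simp
        · intro j _ hj
          simp [hj]
        · intro h
          exact absurd (mem_range.2 (by omega)) h
      · intro g' _ hg'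
        refine Finset.sum_eq_zero fun j _ => ?_
        simp [hg']
      · intro h
        exact absurd (mem_univ g) h
    have e2 : ∑ x : Hx P, (if gd P x = g ∧ lv P x = i then (1 : ℝ) else 0) *
          (KP P)^[T1 P] (fun z => if i + lv P z < L then 1 else 0) x =
        ∑ z : Hx P, (KP P)^[u] (fun x => if gd P x = g ∧ lv P x = i then (1 : ℝ) else 0) z *
          (KP P)^[v] (fun z => if i + lv P z < L then 1 else 0) z := by
      rw [← huv]
      exact ((hPa (Hx P) (Fintype.card (Fin P.Mn)) (wH P) (qH P) (hW P).2.2.2.2.2.1).1 u v _ _).symm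
    set A : ℝ := 1 / (2 * R * P.M0) with hA
    have hA0 : 0 < A := by rw [hA]; positivity
    have bound : ∀ z : Hx P,
        (KP P)^[u] (fun x => if gd P x = g ∧ lv P x = i then (1 : ℝ) else 0) z *
          (KP P)^[v] (fun z => if i + lv P z < L then 1 else 0) z ≤
        (fun g' j => if g' = g then (A / 3 ^ j) * (A / 3 ^ j) else 0) (gd P z) (lv P z) := by
      intro z
      have k1 : (KP P)^[u] (fun x => if gd P x = g ∧ lv P x = i then (1 : ℝ) else 0) z ≤
          (KP P)^[u] (fun x => (fun g' l => if g' = g ∧ l ≤ i then (1 : ℝ) else 0)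
            (gd P x) (lv P x)) z := by
        refine KP_mono hW P (fun x => ?_) u z
        by_cases h : gd P x = g ∧ lv P x = i
        · rw [if_pos h]
          simp only
          rw [if_pos ⟨h.1, h.2.le⟩]
        · rw [if_neg h]
          simp only
          split_ifs <;> norm_num
      have k2 := hL P (fun g' l => if g' = g ∧ l ≤ i then (1 : ℝ) else 0) u z
      have k3 := hL P (fun _ l => if i + l < L then (1 : ℝ) else 0) v z
      have k0 : 0 ≤ (KP P)^[v] (fun z => if i + lv P z < L then (1 : ℝ) else 0) z :=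
        KP_nonneg hW P (fun z => by split_ifs <;> norm_num) v z
      by_cases hg : gd P z = g
      · simp only [if_pos hg]
        rw [hg] at k2 k3
        rw [hφ z hg] at k3
        have b2 := c2 g i' v hi'm hv1 hv2 (lv P z) (hg ▸ lv_le P z)
        have b1 := c2 g i u hi hu1 hu2 (lv P z) (hg ▸ lv_le P z)
        have e4 : bIt (UP P g) (P.m g) 0 ((fun g' l => if g' = g ∧ l ≤ i then (1 : ℝ) else 0) g) u
            (lv P z) = bIt (UP P g) (P.m g) 0 (fun l => if l ≤ i then 1 else 0) u (lv P z) := by
          simp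
        rw [e4] at k2
        have u1 : (KP P)^[u] (fun x => if gd P x = g ∧ lv P x = i then (1 : ℝ) else 0) z ≤
            A / 3 ^ lv P z := k1.trans ((le_of_eq k2).trans b1)
        have u2 : (KP P)^[v] (fun z => if i + lv P z < L then (1 : ℝ) else 0) z ≤
            A / 3 ^ lv P z := (le_of_eq k3).trans b2
        exact mul_le_mul u1 u2 k0 (by positivity)
      · simp only [if_neg hg]
        have e5 : (fun l => if gd P z = g ∧ l ≤ i then (1 : ℝ) else 0) = fun _ => 0 := by
          funext l
          simp [hg]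
        rw [e5, bIt_zero_fun] at k2
        have u1 : (KP P)^[u] (fun x => if gd P x = g ∧ lv P x = i then (1 : ℝ) else 0) z ≤ 0 :=
          k1.trans (le_of_eq k2)
        exact mul_nonpos_of_nonpos_of_nonneg u1 k0
    rw [e1, e2]
    refine (Finset.sum_le_sum fun z _ => bound z).trans ?_
    rw [hSm P (fun g' j => if g' = g then (A / 3 ^ j) * (A / 3 ^ j) else 0),
      Finset.sum_eq_single g]
    · have h3 : ∀ j ∈ range (P.m g + 1), (P.M0 : ℝ) * 4 ^ j *
          (if g = g then (A / 3 ^ j) * (A / 3 ^ j) else 0) = P.M0 * A ^ 2 * (4 / 9) ^ j := by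
        intro j _
        have h9 : (3 : ℝ) ^ j * 3 ^ j = 9 ^ j := by rw [← mul_pow]; norm_num
        rw [if_pos rfl, div_mul_div_comm, h9, div_pow (4 : ℝ) 9 j]
        ring
      rw [Finset.sum_congr rfl h3, ← Finset.mul_sum]
      calc (P.M0 : ℝ) * A ^ 2 * ∑ j ∈ range (P.m g + 1), (4 / 9 : ℝ) ^ j
          ≤ P.M0 * A ^ 2 * (9 / 5) := mul_le_mul_of_nonneg_left (geom_lt _) (by positivity)
        _ = (9 / 20) / (R ^ 2 * P.M0) := by
            rw [hA]
            field_simp
            norm_num
    · intro g' _ hg'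
      refine Finset.sum_eq_zero fun j _ => ?_
      simp [hg']
    · intro h
      exact absurd (mem_univ g) h
  have hM0' : (P.M0 : ℝ) = R * (401000 * Q) := by rw [hM0, hWw]; push_cast; ring
  have hQpos : (0 : ℝ) < Q := by
    have : 0 < Q := by omega
    exact_mod_cast this
  calc 2 * (∑ x, ∑ y, if GoodPair (cellN P) (Upp P R) (R * P.M0 * 4 ^ J)
          (4 ^ L) x y then (0 : ℝ) else (KP P)^[T1 P] (fun z => if z = y then 1 else 0) x)
      ≤ 2 * ∑ g : Bool, ∑ i ∈ range (P.m g + 1), (P.M0 : ℝ) * 4 ^ i *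
        bIt (UP P g) (P.m g) 0 (fun l => if i + l < L then 1 else 0) (T1 P) i := by
        rw [← step2]
        exact mul_le_mul_of_nonneg_left (Finset.sum_le_sum fun x _ => step1 x) (by norm_num)
    _ ≤ 2 * ∑ g : Bool, ∑ i ∈ range (P.m g + 1), (9 / 20) / (R ^ 2 * (P.M0 : ℝ)) := by
        refine mul_le_mul_of_nonneg_left ?_ (by norm_num)
        refine Finset.sum_le_sum fun g _ => Finset.sum_le_sum fun i hi => ?_
        exact step3 g i (by rw [mem_range] at hi; omega)
    _ ≤ 2 * ∑ g : Bool, (4 * (Q : ℝ)) * ((9 / 20) / (R ^ 2 * (P.M0 : ℝ))) := by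
        refine mul_le_mul_of_nonneg_left ?_ (by norm_num)
        refine Finset.sum_le_sum fun g _ => ?_
        rw [Finset.sum_const, card_range, nsmul_eq_mul]
        refine mul_le_mul_of_nonneg_right ?_ (by positivity)
        have : P.m g + 1 ≤ 4 * Q := by
          have := hmm g
          omega
        exact_mod_cast this
    _ = 7.2 / (401000 * R ^ 3) := by
        rw [Fintype.sum_bool, hM0']
        field_simp
        norm_num
    _ ≤ 1 / 20 := by
        have h5 : (1 : ℝ) ≤ R ^ 3 := one_le_pow₀ (by linarith)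
        rw [div_le_div_iff₀ (by positivity) (by norm_num)]
        nlinarith

end H59CW
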